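import Mathlib

namespace Pool.Agent.Results.MP_7d109d_lc.Ultra

open Set Filter ZFSet

/-- first-order formulas of set theory, de Bruijn variables -/
inductive Fml
  | mem (i j : ℕ) | eq (i j : ℕ) | neg (φ : Fml) | conj (φ ψ : Fml) | ex (φ : Fml)

/-- a new value for variable `0`, the others shifted -/
def cons (x : ZFSet.{0}) (v : ℕ → ZFSet.{0}) : ℕ → ZFSet.{0}
  | 0 => x
  | n + 1 => v n

/-- satisfaction in `(M, ∈)` -/
def Sat (M : Set ZFSet.{0}) : Fml → (ℕ → ZFSet.{0}) → Prop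
  | .mem i j, v => v i ∈ v j
  | .eq i j, v => v i = v j
  | .neg φ, v => ¬ Sat M φ v
  | .conj φ ψ, v => Sat M φ v ∧ Sat M ψ v
  | .ex φ, v => ∃ x ∈ M, Sat M φ (cons x v)

/-- `M` (a set or a class) is a transitive model of ZF + DC; extensionality and foundation hold in
every transitive class -/
structure Model (M : Set ZFSet.{0}) : Prop where
  trans : ∀ a ∈ M, ∀ x ∈ a, x ∈ M
  pairing : ∀ a ∈ M, ∀ b ∈ M, ({a, b} : ZFSet) ∈ M
  union : ∀ a ∈ M, ZFSet.sUnion a ∈ M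
  power : ∀ a ∈ M, ∃ p ∈ M, ∀ x ∈ M, x ∈ p ↔ x ⊆ a
  infinity : omega ∈ M
  separation : ∀ (φ : Fml) (v : ℕ → ZFSet), (∀ i, v i ∈ M) → ∀ a ∈ M,
    ∃ b ∈ M, ∀ x, x ∈ b ↔ x ∈ a ∧ Sat M φ (cons x v)
  replacement : ∀ (φ : Fml) (v : ℕ → ZFSet), (∀ i, v i ∈ M) → ∀ a ∈ M,
    (∀ x ∈ a, ∃! y, y ∈ M ∧ Sat M φ (cons y (cons x v))) →
      ∃ b ∈ M, ∀ x ∈ a, ∃ y ∈ b, Sat M φ (cons y (cons x v))
  dc : ∀ a ∈ M, ∀ R ∈ M, (∃ x, x ∈ a) → (∀ x ∈ a, ∃ y ∈ a, pair x y ∈ R) →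
    ∃ f ∈ M, IsFunc omega a f ∧
      ∀ n x y, pair n x ∈ f → pair (insert n n) y ∈ f → pair x y ∈ R

/-- von Neumann numerals -/
def nat : ℕ → ZFSet.{0}
  | 0 => ∅
  | n + 1 => insert (nat n) (nat n)

/-- a point of Cantor space as a subset of `ω` -/
def cod (A : ℕ → Bool) : ZFSet.{0} := ZFSet.sep (fun x => ∃ n, A n = true ∧ x = nat n) omega

/-- the Polish space `5 × 2^ℕ × 2^ℕ` -/
abbrev X : Type := Fin 5 × (ℕ → Bool) × (ℕ → Bool)

/-- a point of `X` as a set (Kuratowski triple) -/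
def pt (x : X) : ZFSet.{0} := pair (nat x.1) (pair (cod x.2.1) (cod x.2.2))

/-- some wellorder gives every vertex finitely many earlier neighbours -/
def CountCol (Γ : SimpleGraph X) : Prop :=
  ∃ r : X → X → Prop, IsWellOrder X r ∧ ∀ y, {x | r x y ∧ Γ.Adj x y}.Finite

/-- `M` contains a `k`-colouring of the graph `Γ ∩ M` -/
def HasCol (M : Set ZFSet.{0}) (Γ : SimpleGraph X) (k : ℕ) : Prop :=
  ∃ c ∈ M, (∀ x, pt x ∈ M → ∃! j, j < k ∧ pair (pt x) (nat j) ∈ c) ∧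
    ∀ x y j, pt x ∈ M → pt y ∈ M → Γ.Adj x y → j < k →
      pair (pt x) (nat j) ∈ c → pair (pt y) (nat j) ∉ c

/-- `M` contains a nonprincipal ultrafilter on its power set of `ω` -/
def HasUF (M : Set ZFSet.{0}) : Prop :=
  ∃ U ∈ M, (∀ z ∈ U, z ⊆ omega) ∧ ∅ ∉ U ∧ (∀ z ∈ U, ∀ w ∈ M, z ⊆ w → w ⊆ omega → w ∈ U) ∧
    (∀ z ∈ U, ∀ w ∈ U, z ∩ w ∈ U) ∧ (∀ z ∈ M, z ⊆ omega → z ∈ U ∨ omega \ z ∈ U) ∧
    ∀ n ∈ omega, ({n} : ZFSet) ∉ U

theorem mk_ofNat (n : ℕ) : ZFSet.mk (PSet.ofNat n) = nat n := by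
  induction n with
  | zero => rfl
  | succ n ih => rw [nat, ← ih]; rfl

theorem mem_omega {x : ZFSet.{0}} : x ∈ omega ↔ ∃ n, x = nat n := by
  induction x using Quotient.inductionOn with
  | h x =>
    refine ⟨fun ⟨⟨n⟩, h⟩ => ⟨n, mk_ofNat n ▸ ZFSet.sound h⟩, fun ⟨n, h⟩ => ?_⟩
    exact ⟨⟨n⟩, ZFSet.exact (h.trans (mk_ofNat n).symm)⟩

theorem nat_mem {m n : ℕ} (h : m < n) : nat m ∈ nat n := by
  induction n with
  | zero => omega
  | succ n ih =>
    rcases Nat.lt_succ_iff_lt_or_eq.1 h with h | rfl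
    exacts [mem_insert_of_mem _ (ih h), mem_insert _ _]

theorem nat_inj : Function.Injective nat := fun m n h => by
  rcases lt_trichotomy m n with h1 | h1 | h1
  · exact (mem_irrefl _ (h ▸ nat_mem h1)).elim
  · exact h1
  · exact (mem_irrefl _ (h ▸ nat_mem h1)).elim

theorem mem_cod {A : ℕ → Bool} {x : ZFSet} : x ∈ cod A ↔ ∃ n, A n = true ∧ x = nat n :=
  mem_sep.trans ⟨fun h => h.2, fun ⟨n, h, e⟩ => ⟨mem_omega.2 ⟨n, e⟩, n, h, e⟩⟩

theorem nat_mem_cod {A : ℕ → Bool} {n : ℕ} : nat n ∈ cod A ↔ A n = true :=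
  mem_cod.trans ⟨fun ⟨_, h, e⟩ => nat_inj e ▸ h, fun h => ⟨n, h, rfl⟩⟩

theorem cod_sub (A : ℕ → Bool) : cod A ⊆ omega := fun _ h => (mem_sep.1 h).1

theorem cod_ext {z w : ZFSet} (hz : z ⊆ omega) (hw : w ⊆ omega) (h : ∀ n, nat n ∈ z ↔ nat n ∈ w) :
    z = w := ZFSet.ext fun x => ⟨fun hx => by
  obtain ⟨n, rfl⟩ := mem_omega.1 (hz hx); exact (h n).1 hx, fun hx => by
  obtain ⟨n, rfl⟩ := mem_omega.1 (hw hx); exact (h n).2 hx⟩

theorem exists_cod {z : ZFSet} (hz : z ⊆ omega) : ∃ A, z = cod A := by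
  classical
  exact ⟨fun n => decide (nat n ∈ z), cod_ext hz (cod_sub _) fun n => by simp [nat_mem_cod]⟩

/-- complement -/
def cp (A : ℕ → Bool) : ℕ → Bool := fun n => !A n

/-- intersection -/
def it (A B : ℕ → Bool) : ℕ → Bool := fun n => A n && B n

/-- the empty set -/
def e0 : ℕ → Bool := fun _ => false

theorem cod_cp (A : ℕ → Bool) : cod (cp A) = omega \ cod A :=
  cod_ext (cod_sub _) (fun _ h => (mem_sdiff.1 h).1) fun n => by
    simp [nat_mem_cod, cp, mem_omega]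

theorem cod_it (A B : ℕ → Bool) : cod (it A B) = cod A ∩ cod B :=
  cod_ext (cod_sub _) (fun _ h => cod_sub _ (mem_inter.1 h).1) fun n => by
    simp [nat_mem_cod, it]

theorem cod_e0 : cod e0 = ∅ := cod_ext (cod_sub _) (empty_subset _) fun n => by
  simp [nat_mem_cod, e0]

theorem cp_cp (A : ℕ → Bool) : cp (cp A) = A := funext fun n => by simp [cp]

/-- variable vertices -/
def vr (A : ℕ → Bool) : X := (1, A, e0)

/-- the literal attached to a gadget vertex -/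
def lit (x : X) : ℕ → Bool :=
  if x.1 = 2 then x.2.1 else if x.1 = 3 then x.2.2 else cp (it x.2.1 x.2.2)

/-- directed edges -/
def R (x y : X) : Prop :=
  (x = vr x.2.1 ∧ (y = (0, e0, e0) ∨ y = vr (cp x.2.1) ∨
    ((∃ N, ∀ n, N ≤ n → x.2.1 n = false) ∧ y = vr (cp e0)))) ∨
  (2 ≤ x.1 ∧ (y = vr (lit x) ∨ (2 ≤ y.1 ∧ x.2 = y.2)))

/-- the graph -/
def Γ : SimpleGraph X := SimpleGraph.fromRel R

theorem meas_Γ : MeasurableSet {p : X × X | Γ.Adj p.1 p.2} := by
  have h1 : Measurable cp := measurable_pi_lambda _ fun n =>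
    (measurable_of_countable _).comp (measurable_pi_apply n)
  have h2 : Measurable fun p : (ℕ → Bool) × (ℕ → Bool) => it p.1 p.2 :=
    measurable_pi_lambda _ fun n => by
      have : Measurable fun p : (ℕ → Bool) × (ℕ → Bool) => (p.1 n, p.2 n) := by fun_prop
      exact (measurable_of_countable fun q : Bool × Bool => q.1 && q.2).comp this
  have h3 : Measurable vr := measurable_const.prodMk (measurable_id.prodMk measurable_const)
  have h4 : Measurable lit :=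
    Measurable.ite (measurable_fst (measurableSet_singleton 2)) measurable_snd.fst
      (Measurable.ite (measurable_fst (measurableSet_singleton 3)) measurable_snd.snd
        (h1.comp (h2.comp measurable_snd)))
  have h5 : Measurable fun x : X => 2 ≤ x.1 :=
    (measurable_of_countable fun i : Fin 5 => 2 ≤ i).comp measurable_fst
  have h6 : Measurable fun p : X × X => R p.1 p.2 :=
    ((measurable_fst.eq (h3.comp measurable_fst.snd.fst)).and
      ((measurable_snd.eq measurable_const).or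
        ((measurable_snd.eq (h3.comp (h1.comp measurable_fst.snd.fst))).or
          ((Measurable.exists fun _ => Measurable.forall fun n => measurable_const.imp
            (((measurable_pi_apply n).comp measurable_fst.snd.fst).eq measurable_const)).and
            (measurable_snd.eq measurable_const))))).or
      ((h5.comp measurable_fst).and ((measurable_snd.eq (h3.comp (h4.comp measurable_fst))).or
        ((h5.comp measurable_snd).and (measurable_fst.snd.eq measurable_snd.snd))))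
  exact ((measurable_fst.eq measurable_snd).not.and (h6.or (h6.comp measurable_swap))).setOf

theorem count_Γ : CountCol Γ := by
  classical
  let ρ : X → ℕ := fun x => if x.1 = 0 ∨ x = vr (cp e0) then 0 else if x.1 = 1 then 1 else 2
  have : IsWellOrder ℕ (· < ·) := isWellOrder_lt
  have : IsWellOrder X WellOrderingRel := WellOrderingRel.isWellOrder
  refine ⟨InvImage (Prod.Lex (· < ·) WellOrderingRel) fun x => (ρ x, x),
    (RelEmbedding.mk ⟨fun x => (ρ x, x), fun _ _ h => congrArg Prod.snd h⟩ Iff.rfl).isWellOrder,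
    fun y => ?_⟩
  refine (((Set.toFinite {(0, e0, e0), vr (cp y.2.1), vr (cp e0), vr (lit y)}).union
    (Set.finite_range fun i : Fin 5 => (i, y.2))).subset ?_)
  rintro x ⟨h1, -, h2⟩
  have h3 : ρ x ≤ ρ y := by
    rcases Prod.lex_def.1 h1 with h | h
    exacts [le_of_lt h, h.1.le]
  have hv : ∀ A, ρ (vr A) ≤ 1 := fun A => by
    simp only [ρ]
    split_ifs <;> simp_all [vr]
  have h4 : ∀ z : X, 2 ≤ z.1 → ρ z = 2 := fun z hz => by
    have : z ≠ vr (cp e0) := fun h => by rw [h] at hz; exact absurd hz (by decide)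
    have h0 : z.1 ≠ 0 := fun h => by rw [h] at hz; exact absurd hz (by decide)
    have h1 : z.1 ≠ 1 := fun h => by rw [h] at hz; exact absurd hz (by decide)
    simp [ρ, this, h0, h1]
  have h5 : ∀ A, ρ (vr A) = 0 → vr A = vr (cp e0) := fun A h => by
    by_contra hn
    simp [ρ, vr] at h
    exact hn (by rw [h])
  rcases h2 with (⟨e, h | h | ⟨-, h⟩⟩ | ⟨h, h' | h'⟩) | (⟨-, h | h | ⟨-, h⟩⟩ | ⟨-, h | h⟩)
  · rw [h, e] at h3
    rw [e, h5 _ (Nat.le_zero.1 (h3.trans_eq (by simp [ρ])))]; simp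
  · rw [e, h]; simp [vr, cp_cp]
  · rw [h, e] at h3
    rw [e, h5 _ (Nat.le_zero.1 (h3.trans_eq (by simp [ρ])))]; simp
  · have := hv (lit x); rw [h4 x h, h'] at h3; omega
  · exact Or.inr ⟨x.1, by rw [← h'.2]⟩
  · simp [h]
  · simp [h]
  · simp [h]
  · simp [h]
  · exact Or.inr ⟨x.1, by rw [h.2]⟩

theorem tri (a b : Bool) : ∃ f : Fin 5 → Fin 3, (∀ i j, 2 ≤ i → 2 ≤ j → i ≠ j → f i ≠ f j) ∧
    ∀ i, 2 ≤ i → f i ≠ if (if i = 2 then a else if i = 3 then b else !(a && b)) then 1 else 0 := by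
  cases a <;> cases b
  exacts [⟨![0, 0, 1, 2, 0], by decide⟩, ⟨![0, 0, 1, 0, 2], by decide⟩,
    ⟨![0, 0, 0, 1, 2], by decide⟩, ⟨![0, 0, 0, 2, 1], by decide⟩]

theorem adj_of {x y : X} (h : x ≠ y) (h' : R x y) : Γ.Adj x y := ⟨h, Or.inl h'⟩

theorem chrom_Γ : Γ.chromaticNumber = 3 := by
  classical
  refine le_antisymm (SimpleGraph.Colorable.chromaticNumber_le (n := 3) ?_) ?_
  · let u : (ℕ → Bool) → Bool := fun A => decide (∀ᶠ n in hyperfilter ℕ, A n = true)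
    have u1 : ∀ A, u (cp A) = !u A := fun A => by
      simp only [u, cp, Bool.not_eq_true', ← decide_not, ← Ultrafilter.eventually_not,
        Bool.not_eq_true]
    have u2 : ∀ A B, u (it A B) = (u A && u B) := fun A B => by
      simp only [u, it, Bool.and_eq_true, eventually_and, Bool.decide_and]
    have u3 : ∀ A, (∃ N, ∀ n, N ≤ n → A n = false) → u A = false := by
      rintro A ⟨N, hN⟩
      refine decide_eq_false (Ultrafilter.eventually_not.1 ?_)
      filter_upwards [Nat.hyperfilter_le_atTop (eventually_ge_atTop N)] with n hn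
      simp [hN n hn]
    choose f hf hf' using tri
    let c : X → Fin 3 := fun x => if x.1 = 0 then 2 else if x.1 = 1 then
      (if u x.2.1 then 1 else 0) else f (u x.2.1) (u x.2.2) x.1
    have c1 : ∀ A, c (vr A) = if u A then 1 else 0 := fun A => rfl
    have c2 : ∀ z : X, 2 ≤ z.1 → c z = f (u z.2.1) (u z.2.2) z.1 := fun z hz => by
      have h0 : z.1 ≠ 0 := fun h => by rw [h] at hz; exact absurd hz (by decide)
      have h1 : z.1 ≠ 1 := fun h => by rw [h] at hz; exact absurd hz (by decide)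
      simp only [c, h0, h1, if_false]
    have key : ∀ x y, x ≠ y → R x y → c x ≠ c y := by
      rintro x y hne (⟨e, rfl | rfl | ⟨h, rfl⟩⟩ | ⟨h, rfl | h'⟩)
      · rw [e, c1]; change _ ≠ (2 : Fin 3); split_ifs <;> decide
      · rw [c1, u1]; conv_lhs => rw [e, c1]
        cases u x.2.1 <;> decide
      · rw [c1, u1, e, c1, u3 _ h, u3 e0 ⟨0, fun _ _ => rfl⟩]; decide
      · rw [c2 x h, c1]
        have : u (lit x) = if x.1 = 2 then u x.2.1 else if x.1 = 3 then u x.2.2 else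
            !(u x.2.1 && u x.2.2) := by
          unfold lit
          split_ifs
          exacts [rfl, rfl, by rw [u1, u2]]
        rw [this]
        exact hf' _ _ _ h
      · rw [c2 x h, c2 y h'.1, h'.2]
        exact hf _ _ _ _ h h'.1 fun e => hne (Prod.ext e h'.2)
    exact ⟨SimpleGraph.Coloring.mk c fun {x y} h =>
      h.2.elim (key x y h.1) fun h' => (key y x h.1.symm h').symm⟩
  · refine SimpleGraph.le_chromaticNumber_of_pairwise_adj (ι := {i : Fin 5 // 2 ≤ i}) (n := 3)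
      (by rw [Nat.card_eq_fintype_card]; decide) (fun i => (i.1, e0, e0)) fun i j hij => ?_
    exact adj_of (fun h => hij (Subtype.ext (congrArg Prod.fst h))) (Or.inr ⟨i.2, Or.inr ⟨j.2, rfl⟩⟩)

/-- definable properties of assignments -/
def Def (M : Set ZFSet.{0}) (P : (ℕ → ZFSet.{0}) → Prop) : Prop :=
  ∃ φ, ∀ v, (∀ i, v i ∈ M) → (Sat M φ v ↔ P v)

variable {M : Set ZFSet.{0}} {P Q : (ℕ → ZFSet.{0}) → Prop}

theorem cons_mem {x : ZFSet} {v : ℕ → ZFSet} (hx : x ∈ M) (hv : ∀ i, v i ∈ M) (i : ℕ) :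
    cons x v i ∈ M := by cases i; exacts [hx, hv _]

theorem Def.mem (i j : ℕ) : Def M fun v => v i ∈ v j := ⟨.mem i j, fun _ _ => Iff.rfl⟩

theorem Def.eq (i j : ℕ) : Def M fun v => v i = v j := ⟨.eq i j, fun _ _ => Iff.rfl⟩

theorem Def.not (h : Def M P) : Def M fun v => ¬ P v :=
  let ⟨φ, h⟩ := h; ⟨.neg φ, fun v hv => (h v hv).not⟩

theorem Def.and (h : Def M P) (h' : Def M Q) : Def M fun v => P v ∧ Q v :=
  let ⟨φ, h⟩ := h; let ⟨ψ, h'⟩ := h'; ⟨.conj φ ψ, fun v hv => (h v hv).and (h' v hv)⟩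

theorem Def.ex (h : Def M P) : Def M fun v => ∃ x ∈ M, P (cons x v) :=
  let ⟨φ, h⟩ := h
  ⟨.ex φ, fun _ hv => exists_congr fun _ => and_congr_right fun hx => h _ (cons_mem hx hv)⟩

theorem Def.congr (h : Def M P) (h' : ∀ v, (∀ i, v i ∈ M) → (P v ↔ Q v)) : Def M Q :=
  let ⟨φ, h⟩ := h; ⟨φ, fun v hv => (h v hv).trans (h' v hv)⟩

theorem Def.dbl (hM : Model M) (i j k : ℕ) : Def M fun v => v i = {v j, v k} :=
  ((Def.mem j i).and ((Def.mem k i).and (((Def.mem 0 (i + 1)).and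
    ((Def.eq 0 (j + 1)).not.and (Def.eq 0 (k + 1)).not)).ex.not))).congr fun v hv => by
    constructor
    · rintro ⟨h1, h2, h3⟩
      refine ZFSet.ext fun x => ⟨fun hx => mem_pair.2 (by_contra fun hn => ?_), fun hx => ?_⟩
      · exact h3 ⟨x, hM.trans _ (hv i) x hx, hx, not_or.1 hn⟩
      · rcases mem_pair.1 hx with rfl | rfl
        exacts [h1, h2]
    · intro h
      refine ⟨h ▸ mem_pair.2 (Or.inl rfl), h ▸ mem_pair.2 (Or.inr rfl), ?_⟩
      rintro ⟨x, -, h1, h2⟩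
      exact not_or.2 h2 (mem_pair.1 (h ▸ h1 : x ∈ ({v j, v k} : ZFSet)))

theorem Model.sing (hM : Model M) {a : ZFSet} (ha : a ∈ M) : ({a} : ZFSet) ∈ M :=
  ZFSet.pair_eq_singleton a ▸ hM.pairing a ha a ha

theorem Model.pair (hM : Model M) {a b : ZFSet} (ha : a ∈ M) (hb : b ∈ M) : pair a b ∈ M :=
  hM.pairing _ (hM.sing ha) _ (hM.pairing a ha b hb)

theorem Def.pair (hM : Model M) (i j k : ℕ) : Def M fun v => v i = pair (v j) (v k) :=
  ((Def.dbl hM 1 (j + 2) (j + 2)).and ((Def.dbl hM 0 (j + 2) (k + 2)).and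
    (Def.dbl hM (i + 2) 1 0))).ex.ex.congr fun v hv => by
    constructor
    · rintro ⟨s, -, t, -, h1, h2, h3⟩
      change s = {v j, v j} at h1
      change t = {v j, v k} at h2
      change v i = {s, t} at h3
      rw [h3, h1, h2, ZFSet.pair_eq_singleton]; rfl
    · exact fun h => ⟨_, hM.sing (hv j), _, hM.pairing _ (hv j) _ (hv k),
        (ZFSet.pair_eq_singleton _).symm, rfl, h⟩

theorem Model.sep (hM : Model M) (h : Def M P) {v : ℕ → ZFSet} (hv : ∀ i, v i ∈ M) {a : ZFSet}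
    (ha : a ∈ M) : ∃ b ∈ M, ∀ x, x ∈ b ↔ x ∈ a ∧ P (cons x v) := by
  obtain ⟨φ, h⟩ := h
  obtain ⟨b, hb, h'⟩ := hM.separation φ v hv a ha
  exact ⟨b, hb, fun x => (h' x).trans
    (and_congr_right fun hx => h _ (cons_mem (hM.trans a ha x hx) hv))⟩

theorem Model.nat (hM : Model M) (n : ℕ) : nat n ∈ M :=
  hM.trans _ hM.infinity _ (mem_omega.2 ⟨n, rfl⟩)

theorem Model.cp (hM : Model M) {A : ℕ → Bool} (h : cod A ∈ M) : cod (cp A) ∈ M := by
  obtain ⟨b, hb, h'⟩ := hM.sep (Def.mem 0 1).not (v := fun _ => cod A) (fun _ => h) hM.infinity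
  rwa [cod_cp, show omega \ cod A = b from ZFSet.ext fun x => mem_sdiff.trans (h' x).symm]

theorem Model.it (hM : Model M) {A B : ℕ → Bool} (h : cod A ∈ M) (h2 : cod B ∈ M) :
    cod (it A B) ∈ M := by
  obtain ⟨b, hb, h'⟩ := hM.sep (Def.mem 0 1) (v := fun _ => cod B) (fun _ => h2) h
  rwa [cod_it, show cod A ∩ cod B = b from ZFSet.ext fun x => mem_inter.trans (h' x).symm]

theorem pigeon : ∀ a b c d e : Fin 3, a ≠ b → a ≠ c → b ≠ c → a ≠ d → b ≠ d → c ≠ d → d = e := by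
  decide

theorem third : ∀ a b c d : Fin 3, a ≠ b → a ≠ c → b ≠ c → d ≠ a → d ≠ b → d = c := by
  intro a b c d
  simp only [Ne, Fin.ext_iff]
  omega

theorem ultra (hM : Model M) (h : HasCol M Γ 3) : HasUF M := by
  classical
  obtain ⟨c, hc, h1, h2⟩ := h
  have he : cod e0 ∈ M := cod_e0 ▸ hM.nat 0
  have hp : ∀ (i : Fin 5) {A B}, cod A ∈ M → cod B ∈ M → pt (i, A, B) ∈ M := fun i _ _ hA hB =>
    hM.pair (hM.nat _) (hM.pair hA hB)
  have hv : ∀ {A}, cod A ∈ M → pt (vr A) ∈ M := fun hA => hp 1 hA he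
  choose! g hg hg' using h1
  let col : X → Fin 3 := fun x => if h : g x < 3 then ⟨g x, h⟩ else 0
  have hcol : ∀ x, pt x ∈ M → (col x : ℕ) = g x := fun x hx => by
    simp only [col, dif_pos (hg x hx).1]
  have hadj : ∀ {x y}, pt x ∈ M → pt y ∈ M → x ≠ y → R x y → col x ≠ col y := by
    intro x y hx hy hne hR e
    have e' : g x = g y := by rw [← hcol x hx, e, hcol y hy]
    exact h2 x y (g x) hx hy (adj_of hne hR) (hg x hx).1 (hg x hx).2 (e' ▸ (hg y hy).2)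
  let T := col (vr (cp e0))
  have a1 : ∀ {A}, cod A ∈ M → col (vr A) ≠ col (0, e0, e0) := fun hA =>
    hadj (hv hA) (hp 0 he he) (fun h => (by decide : (1 : Fin 5) ≠ 0) (congrArg Prod.fst h))
      (Or.inl ⟨rfl, Or.inl rfl⟩)
  have a2 : ∀ {A}, cod A ∈ M → col (vr A) ≠ col (vr (cp A)) := fun {A} hA =>
    hadj (hv hA) (hv (hM.cp hA)) (fun h => by
      have := congrFun (congrArg (fun x : X => x.2.1) h) 0
      simp [vr, cp] at this) (Or.inl ⟨rfl, Or.inr (Or.inl rfl)⟩)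
  have a3 : ∀ {A}, cod A ∈ M → (∃ N, ∀ n, N ≤ n → A n = false) → col (vr A) ≠ T :=
    fun {A} hA ⟨N, hN⟩ => hadj (hv hA) (hv (hM.cp he)) (fun h => by
      have := congrFun (congrArg (fun x : X => x.2.1) h) N
      simp [vr, cp, e0, hN N le_rfl] at this) (Or.inl ⟨rfl, Or.inr (Or.inr ⟨⟨N, hN⟩, rfl⟩)⟩)
  have a4 : ∀ {A}, cod A ∈ M → col (vr A) = T ∨ col (vr (cp A)) = T := fun {A} hA =>
    or_iff_not_imp_left.2 fun hn => (third _ _ _ _ (a1 hA).symm (a1 (hM.cp hA)).symm (a2 hA)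
      (a1 (hM.cp he)) (Ne.symm hn)).symm
  have a5 : ∀ {A B}, cod A ∈ M → cod B ∈ M → col (vr A) = T → col (vr B) = T →
      col (vr (it A B)) = T := by
    intro A B hA hB h3 h4
    refine (a4 (hM.it hA hB)).resolve_right fun h5 => ?_
    have t1 : ∀ i j : Fin 5, 2 ≤ i → 2 ≤ j → i ≠ j → col (i, A, B) ≠ col (j, A, B) :=
      fun i j hi hj hij => hadj (hp i hA hB) (hp j hA hB) (fun h => hij (congrArg Prod.fst h))
        (Or.inr ⟨hi, Or.inr ⟨hj, rfl⟩⟩)
    have t2 : ∀ i : Fin 5, 2 ≤ i → cod (lit (i, A, B)) ∈ M →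
        col (i, A, B) ≠ col (vr (lit (i, A, B))) := fun i hi hl =>
      hadj (hp i hA hB) (hv hl) (fun h => by
        rw [show i = 1 from congrArg Prod.fst h] at hi; exact absurd hi (by decide))
        (Or.inr ⟨hi, Or.inl rfl⟩)
    exact a1 (hM.cp he) (pigeon _ _ _ _ _ (t1 2 3 (by decide) (by decide) (by decide))
      (t1 2 4 (by decide) (by decide) (by decide)) (t1 3 4 (by decide) (by decide) (by decide))
      (fun h => t2 2 (by decide) hA (h.trans h3.symm))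
      (fun h => t2 3 (by decide) hB (h.trans h4.symm))
      (fun h => t2 4 (by decide) (hM.cp (hM.it hA hB)) (h.trans h5.symm)))
  obtain ⟨p, hp1, hp2⟩ := hM.power _ hM.infinity
  obtain ⟨U, hU, hU'⟩ := hM.sep ((Def.pair hM 2 3 4).and ((Def.pair hM 1 5 2).and
    ((Def.pair hM 0 1 6).and (Def.mem 0 7)))).ex.ex.ex
    (v := cons ∅ (cons (nat 1) (cons (nat T) fun _ => c)))
    (cons_mem (hM.nat 0) (cons_mem (hM.nat 1) (cons_mem (hM.nat _) fun _ => hc))) hp1
  have b1 : ∀ z ∈ U, z ⊆ omega := fun z hz =>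
    (hp2 z (hM.trans U hU z hz)).1 ((hU' z).1 hz).1
  have b2 : ∀ {A}, cod A ∈ M → (cod A ∈ U ↔ col (vr A) = T) := by
    intro A hA
    have e : pt (vr A) = pair (nat 1) (pair (cod A) ∅) := by rw [← cod_e0]; rfl
    rw [hU']
    constructor
    · rintro ⟨-, s, -, t, -, d, -, h3, h4, h5, h6⟩
      change s = pair (cod A) ∅ at h3
      change t = pair (nat 1) s at h4
      change d = pair t (nat T) at h5
      change d ∈ c at h6
      rw [h5, h4, h3, ← e] at h6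
      exact Fin.ext ((hcol _ (hv hA)).trans (hg' _ (hv hA) _ ⟨T.2, h6⟩).symm)
    · intro h
      have h3 := hM.pair hA (hM.nat 0)
      have h4 := hM.pair (hM.nat 1) h3
      refine ⟨(hp2 _ hA).2 (cod_sub A), _, h3, _, h4, _, hM.pair h4 (hM.nat T), rfl, rfl, rfl, ?_⟩
      change pair (pair (nat 1) (pair (cod A) ∅)) (nat T) ∈ c
      rw [← e, ← h, hcol _ (hv hA)]
      exact (hg _ (hv hA)).2
  have b3 : ∀ z ∈ U, ∃ A, z = cod A ∧ cod A ∈ M ∧ col (vr A) = T := fun z hz => by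
    obtain ⟨A, rfl⟩ := exists_cod (b1 z hz)
    exact ⟨A, rfl, hM.trans U hU _ hz, (b2 (hM.trans U hU _ hz)).1 hz⟩
  have b4 : col (vr e0) ≠ T := a3 he ⟨0, fun _ _ => rfl⟩
  refine ⟨U, hU, b1, fun h => b4 ((b2 he).1 (cod_e0 ▸ h)), fun z hz w hw h3 h4 => ?_,
    fun z hz w hw => ?_, fun z hz h3 => ?_, fun n hn h3 => ?_⟩
  · obtain ⟨A, rfl, hA, h5⟩ := b3 z hz
    obtain ⟨B, rfl⟩ := exists_cod h4
    refine (b2 hw).2 ((a4 hw).resolve_right fun h6 => b4 ?_)
    have : it A (cp B) = e0 := funext fun n => by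
      by_cases h : A n = true
      · simp [it, cp, e0, nat_mem_cod.1 (h3 (nat_mem_cod.2 h))]
      · simp [it, e0, h]
    exact this ▸ a5 hA (hM.cp hw) h5 h6
  · obtain ⟨A, rfl, hA, h5⟩ := b3 z hz
    obtain ⟨B, rfl, hB, h6⟩ := b3 w hw
    exact cod_it A B ▸ (b2 (hM.it hA hB)).2 (a5 hA hB h5 h6)
  · obtain ⟨A, rfl⟩ := exists_cod h3
    exact (a4 hz).imp (b2 hz).2 fun h => cod_cp A ▸ (b2 (hM.cp hz)).2 h
  · obtain ⟨m, rfl⟩ := mem_omega.1 hn
    obtain ⟨A, e, hA, h5⟩ := b3 _ h3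
    refine a3 hA ⟨m + 1, fun n hn => by_contra fun h => ?_⟩ h5
    have := nat_inj (mem_singleton.1 (e ▸ nat_mem_cod.2 (by simpa using h) : nat n ∈ ({nat m} : ZFSet)))
    omega

/-- sanity check: the whole universe of sets is such a model -/
theorem univ_model : Model univ := by
  refine ⟨fun _ _ _ _ => trivial, fun _ _ _ _ => trivial, fun _ _ => trivial,
    fun a _ => ⟨powerset a, trivial, fun _ _ => ZFSet.mem_powerset⟩, trivial,
    fun φ v _ a _ => ⟨ZFSet.sep _ a, trivial, fun _ => ZFSet.mem_sep⟩, fun φ v _ a _ h => ?_,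
    fun a _ R _ ⟨x, hx⟩ h => ?_⟩
  · choose f hf using fun x : a => (h x.1 x.2).exists
    exact ⟨ZFSet.range f, trivial, fun x hx => ⟨f ⟨x, hx⟩, ZFSet.mem_range_self _, (hf _).2⟩⟩
  · choose g hg hg' using fun x : a => h x.1 x.2
    let s : ℕ → a := fun n => (fun y => ⟨g y, hg y⟩)^[n] ⟨x, hx⟩
    have key : ∀ {n y}, pair n y ∈ ZFSet.range (fun m => pair (nat m) (s m).1) ↔
        ∃ m, nat m = n ∧ (s m).1 = y := by simp only [ZFSet.mem_range, pair_inj, implies_true]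
    refine ⟨ZFSet.range fun m => pair (nat m) (s m).1, trivial, ⟨fun z hz => ?_, fun z hz => ?_⟩,
      fun n x y h1 h2 => ?_⟩
    · obtain ⟨m, rfl⟩ := ZFSet.mem_range.1 hz
      exact pair_mem_prod.2 ⟨mem_omega.2 ⟨m, rfl⟩, (s m).2⟩
    · obtain ⟨m, rfl⟩ := mem_omega.1 hz
      refine ⟨s m, key.2 ⟨m, rfl, rfl⟩, fun y hy => ?_⟩
      obtain ⟨l, h1, rfl⟩ := key.1 hy
      rw [nat_inj h1]
    · obtain ⟨m, rfl, rfl⟩ := key.1 h1
      obtain ⟨l, h3, rfl⟩ := key.1 h2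
      obtain rfl : l = m + 1 := nat_inj h3
      simp only [s, Function.iterate_succ_apply']
      exact hg' _

theorem result : Model univ ∧ ∃ (Γ : SimpleGraph X) (k : ℕ), MeasurableSet {p : X × X | Γ.Adj p.1 p.2} ∧
    Γ.chromaticNumber = k ∧ CountCol Γ ∧
      ∀ M : Set ZFSet.{0}, Model M → HasCol M Γ k → HasUF M :=
  ⟨univ_model, Γ, 3, meas_Γ, chrom_Γ, count_Γ, fun _ => ultra⟩

end Pool.Agent.Results.MP_7d109d_lc.Ultra
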